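import Pool.Agent.H57.SC.Targets

/-! US: usable vertices of one cycle -/

set_option autoImplicit false

namespace Pool.Agent.H51.SC

open Finset Pool.Agent.H57.SC

/-- two elements -/
theorem two_le {W : Type} [Fintype W] (P : W → Prop) (x y : W) (hx : P x) (hy : P y) (h : x ≠ y) :
    2 ≤ Nat.card {w // P w} := by
  classical
  rw [Nat.card_eq_fintype_card, Fintype.card_subtype]
  have h1 : ({x, y} : Finset W) ⊆ univ.filter (fun w => P w) := by
    intro z hz
    rw [mem_insert, mem_singleton] at hz
    rcases hz with rfl | rfl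
    · exact mem_filter.mpr ⟨mem_univ _, hx⟩
    · exact mem_filter.mpr ⟨mem_univ _, hy⟩
  rw [← card_pair h]
  exact card_le_card h1

/-- three elements -/
theorem three_le {W : Type} [Fintype W] (P : W → Prop) (x y z : W) (hx : P x) (hy : P y) (hz : P z)
    (h1 : x ≠ y) (h2 : x ≠ z) (h3 : y ≠ z) : 3 ≤ Nat.card {w // P w} := by
  classical
  rw [Nat.card_eq_fintype_card, Fintype.card_subtype]
  have h4 : ({x, y, z} : Finset W) ⊆ univ.filter (fun w => P w) := by
    intro t ht
    rw [mem_insert, mem_insert, mem_singleton] at ht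
    rcases ht with rfl | rfl | rfl
    · exact mem_filter.mpr ⟨mem_univ _, hx⟩
    · exact mem_filter.mpr ⟨mem_univ _, hy⟩
    · exact mem_filter.mpr ⟨mem_univ _, hz⟩
  have h5 : ({x, y, z} : Finset W).card = 3 := card_eq_three.mpr ⟨x, y, z, h1, h2, h3, rfl⟩
  rw [← h5]
  exact card_le_card h4

theorem pf_us : T_US := by
  intro W C B _ _ _ _ _ _ cyc blk adj hS Q f c hal
  obtain ⟨hcm, hA1, hA2⟩ := hal
  have hus : ∀ w, cyc w = c → OKP adj (fun p => Mk cyc blk Q c p ∨ p = w) w →
      OKP adj (fun p => Mk cyc blk Q c p ∨ p = w) (f c) → Us cyc blk adj Q f w := by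
    intro w hw h1 h2
    subst hw
    exact ⟨h1, h2⟩
  by_cases hcase : ∃ u, Mk cyc blk Q c u ∧ u ≠ f c
  · obtain ⟨u, hu, hum⟩ := hcase
    have hadj : adj (f c) u := by
      rcases hA1 u hu with h | h
      · exact absurd h.symm hum
      · exact h
    have hpair : ∀ p, Mk cyc blk Q c p → p ≠ u → f c = p := by
      intro p hp hpu
      rcases hA2 p u hp hu hpu with h | h
      · exact h
      · exact absurd h.symm hum
    have h1 : Us cyc blk adj Q f (f c) := by
      have h2 : OKP adj (fun p => Mk cyc blk Q c p ∨ p = f c) (f c) := by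
        refine ⟨?_, ?_⟩
        · rintro p (hp | hp)
          · exact hA1 p hp
          · exact Or.inl hp.symm
        · rintro p q (hp | hp) (hq | hq) hpq
          · exact hA2 p q hp hq hpq
          · exact Or.inr hq.symm
          · exact Or.inl hp.symm
          · exact Or.inl hp.symm
      exact hus _ hcm h2 h2
    have h2 : Us cyc blk adj Q f u := by
      refine hus u hu.1 ⟨?_, ?_⟩ ⟨?_, ?_⟩
      · rintro p (hp | hp)
        · by_cases hpu : p = u
          · exact Or.inl hpu.symm
          · right
            rw [← hpair p hp hpu]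
            exact hS.symm _ _ hadj
        · exact Or.inl hp.symm
      · rintro p q (hp | hp) (hq | hq) hpq
        · by_cases hpu : p = u
          · exact Or.inl hpu.symm
          · by_cases hqu : q = u
            · exact Or.inr hqu.symm
            · exact absurd ((hpair p hp hpu).symm.trans (hpair q hq hqu)) hpq
        · exact Or.inr hq.symm
        · exact Or.inl hp.symm
        · exact Or.inl hp.symm
      · rintro p (hp | hp)
        · exact hA1 p hp
        · rw [hp]
          exact Or.inr hadj
      · rintro p q (hp | hp) (hq | hq) hpq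
        · exact hA2 p q hp hq hpq
        · rw [hq] at hpq ⊢
          exact hA2 p u hp hu hpq
        · rw [hp] at hpq ⊢
          exact hA2 u q hu hq hpq
        · exact absurd (hp.trans hq.symm) hpq
    refine ⟨two_le _ (f c) u ⟨hcm, h1⟩ ⟨hu.1, h2⟩ hum.symm, fun h => ?_⟩
    exact absurd (h u hu.1 hu.2) hum
  · have hall : ∀ u, Mk cyc blk Q c u → u = f c := by
      intro u hu
      by_contra h
      exact hcase ⟨u, hu, h⟩
    obtain ⟨a, b, hab, hd⟩ := hS.deg (f c)
    have ha : adj (f c) a := (hd a).mpr (Or.inl rfl)
    have hb : adj (f c) b := (hd b).mpr (Or.inr rfl)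
    have hma : f c ≠ a := by
      intro h
      rw [← h] at ha
      exact hS.irr _ ha
    have hmb : f c ≠ b := by
      intro h
      rw [← h] at hb
      exact hS.irr _ hb
    have hca : cyc a = c := (hS.cy _ _ ha).symm.trans hcm
    have hcb : cyc b = c := (hS.cy _ _ hb).symm.trans hcm
    have hw : ∀ w, cyc w = c → (f c = w ∨ adj (f c) w) → Us cyc blk adj Q f w := by
      intro w hwc hwm
      have hP : ∀ p, Mk cyc blk Q c p ∨ p = w → p = f c ∨ p = w := by
        rintro p (hp | hp)
        · exact Or.inl (hall p hp)
        · exact Or.inr hp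
      refine hus w hwc ⟨?_, ?_⟩ ⟨?_, ?_⟩
      · intro p hp
        rcases hP p hp with h | h
        · rcases hwm with h' | h'
          · exact Or.inl (h'.symm.trans h.symm)
          · rw [h]
            exact Or.inr (hS.symm _ _ h')
        · exact Or.inl h.symm
      · intro p q hp hq hpq
        rcases hP p hp with h | h
        · rcases hP q hq with h' | h'
          · exact absurd (h.trans h'.symm) hpq
          · exact Or.inr h'.symm
        · exact Or.inl h.symm
      · intro p hp
        rcases hP p hp with h | h
        · exact Or.inl h.symm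
        · rw [h]
          exact hwm
      · intro p q hp hq hpq
        rcases hP p hp with h | h
        · exact Or.inl h.symm
        · rcases hP q hq with h' | h'
          · exact Or.inr h'.symm
          · exact absurd (h.trans h'.symm) hpq
    have h3 : 3 ≤ Nat.card {w // cyc w = c ∧ Us cyc blk adj Q f w} :=
      three_le _ (f c) a b ⟨hcm, hw _ hcm (Or.inl rfl)⟩ ⟨hca, hw a hca (Or.inr ha)⟩
        ⟨hcb, hw b hcb (Or.inr hb)⟩ hma hmb hab
    exact ⟨by omega, fun _ => h3⟩

end Pool.Agent.H51.SC
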